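import Pool.Agent.Helper80_TWC.ArrC

/-!
# Squad TWC, module ARR (helper80)
-/

set_option autoImplicit false

open SimpleGraph

namespace Pool.Agent.TWC80.H80

open Pool.Agent.RS80 Pool.Agent.RS81 Pool.Agent.SEP60

/-- ARR -/
theorem arr (dgc : DgcStmt) : ArrStmt := by
  classical
  intro V _ B κ v₁ a δ ha hκ hV hK hMix K _ R κ' S hR hS hSc hδ hT M hM Y E _ _ inc hinc hL hχ
  rintro ⟨Rg, Sg, hgood⟩
  let θ : Y → Bool → Fin a → Bool := fun y α h =>
    decide (Rg.Adj (.inl (hub α h)) (.inl (pt α y)))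
  have key : ∀ θ₀ : Bool → Fin a → Bool, ∃ g : Y → Fin (4 * Nat.card V + 1), ∀ e,
      (∀ i, θ (inc e i) = θ₀) → ¬ ∃ c, ∀ i, g (inc e i) = c := by
    intro θ₀
    by_cases hmix : ∃ α h₀ h₁, θ₀ α h₀ = true ∧ θ₀ α h₁ = false
    · obtain ⟨α, h₀, h₁, hh₀, hh₁⟩ := hmix
      obtain ⟨g, hg⟩ := mixed hK (by omega) hMix hM hinc hL hgood α (θ₀ α) hh₀ hh₁
        (fun y => θ y = θ₀) (fun y hy h => by
          have h1 : θ y α h = θ₀ α h := by rw [hy]
          rw [← h1]
          exact (decide_eq_true_iff).symm)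
      refine ⟨fun y => ⟨if g y = true then 1 else 0, by split_ifs <;> omega⟩, ?_⟩
      rintro e he ⟨c, hc⟩
      refine hg e he ⟨g (inc e (.inr (.inr v₁))), fun i => ?_⟩
      have h1 := hc i
      have h2 := hc (.inr (.inr v₁))
      rw [← h2] at h1
      have h3 : (if g (inc e i) = true then 1 else 0) =
          (if g (inc e (.inr (.inr v₁))) = true then 1 else 0) := congrArg Fin.val h1
      revert h3
      generalize g (inc e i) = x
      generalize g (inc e (.inr (.inr v₁))) = y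
      revert x y
      decide
    · push Not at hmix
      have hk : ∀ α h, θ₀ α h = θ₀ α ⟨0, ha⟩ := by
        intro α h
        cases h1 : θ₀ α h <;> cases h2 : θ₀ α ⟨0, ha⟩
        · rfl
        · exact absurd h1 (hmix α _ _ h2)
        · exact absurd h2 (hmix α _ _ h1)
        · rfl
      exact pureCase dgc ha hκ hK hR hS hSc hδ hT hinc hgood (fun α => θ₀ α ⟨0, ha⟩)
        (fun y => θ y = θ₀) (fun y hy α h => by
          have h1 : θ y α h = θ₀ α ⟨0, ha⟩ := by rw [hy, hk]
          rw [← h1]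
          exact (decide_eq_true_iff).symm)
  choose g hg using key
  obtain ⟨e, c, hc⟩ := hχ (fun y => (θ y, g (θ y) y))
  refine hg c.1 e (fun i => congrArg Prod.fst (hc i)) ⟨c.2, fun i => ?_⟩
  have h1 := congrArg Prod.snd (hc i)
  have h2 : θ (inc e i) = c.1 := congrArg Prod.fst (hc i)
  have h3 : g (θ (inc e i)) (inc e i) = c.2 := h1
  rw [h2] at h3
  exact h3

end Pool.Agent.TWC80.H80
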