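import Pool.Agent.Helper80_TWC.Asm
import Pool.Agent.Helper80_TWC.Arr
import Pool.Agent.Helper10_TWC.Mul
import Pool.Agent.Helper10_TWC.Tmp
import Pool.Agent.Helper32_TWC.HYK
import Pool.Agent.Helper32_TWC.DGC
import Pool.Agent.Helper25_TWC.Sys
import Pool.Agent.Helper86_TWC.Col
import Pool.Agent.Helper91_TWC.Mix
import Pool.Agent.Helper91_TWC.Kpm
import Pool.Agent.Helper60_SEP.Fin

/-!
# MP_ff6f12_co, squad TWC: assembly
-/

set_option autoImplicit false

open SimpleGraph

namespace Pool.Agent.TWC80.H80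

open Pool.Agent.RS80 Pool.Agent.RS81 Pool.Agent.SEP60

theorem topOf (col : ColStmt) : TopStmt :=
  top H32.hyk col H10.tmp' (H10.mul SEP60.H60.upp) H91.mix H91.kpm (arr H32.dgc)
    (qst SEP60.H11.kan SEP60.H21.kqq SEP60.H21.ddd) SEP60.H60.bsmAll

/-- Every 2-connected bipartite graph is 2-Ramsey-simple. -/
theorem topAll : TopStmt := topOf H86.col

end Pool.Agent.TWC80.H80
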