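import Pool.Agent.Helper80_TWC.ArrA

/-!
# Squad TWC, module ARR, part B: mixed hub patterns (helper80)
-/

set_option autoImplicit false

open SimpleGraph

namespace Pool.Agent.TWC80.H80

open Pool.Agent.RS80 Pool.Agent.RS81 Pool.Agent.SEP60

/-- The colour class `c` of the colouring `(R, S)`. -/
def gc {X : Type} (R S : SimpleGraph X) (c : Bool) : SimpleGraph X := if c = true then R else S

theorem gc_free {X V : Type} {B : SimpleGraph V} {F R S : SimpleGraph X} (h : Good B F R S)
    (c : Bool) : B.Free (gc R S c) := by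
  cases c
  · exact h.2.2
  · exact h.2.1

theorem gc_adj {X V : Type} {B : SimpleGraph V} {F R S : SimpleGraph X} (h : Good B F R S)
    {x y : X} (hxy : F.Adj x y) (c : Bool) (hc : ¬ (gc R S c).Adj x y) :
    (gc R S !c).Adj x y := by
  have h1 : R.Adj x y ∨ S.Adj x y := by
    rw [← SimpleGraph.sup_adj, h.1]
    exact hxy
  cases c
  · exact h1.resolve_right hc
  · exact h1.resolve_left hc

theorem pigeon {a q M : ℕ} (hM : 2 ^ a * q < M) (f : Fin M → (Fin a → Bool)) :
    ∃ ρ, q + 1 ≤ {m | f m = ρ}.ncard := by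
  classical
  obtain ⟨ρ, _, hρ⟩ := Finset.exists_lt_card_fiber_of_mul_lt_card_of_maps_to
    (s := (Finset.univ : Finset (Fin M))) (t := (Finset.univ : Finset (Fin a → Bool)))
    (f := f) (n := q) (fun _ _ => Finset.mem_univ _) (by simpa using hM)
  refine ⟨ρ, ?_⟩
  have h1 : {m | f m = ρ} = ((Finset.univ.filter (fun m => f m = ρ) : Finset (Fin M)) :
      Set (Fin M)) := by
    ext m
    simp
  rw [h1, Set.ncard_coe_finset]
  exact hρ

theorem count {a : ℕ} (f : Fin a → Bool) :
    {h | f h = true}.ncard + {h | f h = false}.ncard = a := by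
  have h1 : {h | f h = false} = {h | f h = true}ᶜ := by
    ext h
    simp
  rw [h1]
  have := Set.ncard_add_ncard_compl {h : Fin a | f h = true}
  simpa using this

section mixed

variable {V K Y E : Type} {a M : ℕ}

/-- The local pattern of the private hubs. -/
noncomputable def loc (inc : E → (Fin M ⊕ (K ⊕ V)) → Y) (Rg : SimpleGraph (Wt a Y E ⊕ E))
    (α : Bool) (e : E) (m : Fin M) (h : Fin a) : Bool := by
  classical
  exact decide (Rg.Adj (.inl (pr α e h)) (.inl (pt α (inc e (.inl m)))))

theorem mixed [Finite V] {B : SimpleGraph V} {κ : V → Bool} {v₁ : V}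
    (hK : B ⊑ completeBipartiteGraph (Fin (a + 1)) (Fin (Nat.card V)))
    (hV : 1 ≤ Nat.card V)
    (hMix : ∀ i j : ℕ, 1 ≤ i → 1 ≤ j → i + j = a → B ⊑ MixHost i j (Nat.card V))
    [Finite K] {R : SimpleGraph K} {κ' : K → Bool} (hM : 2 ^ a * Nat.card V < M)
    [Finite Y] [Finite E] {inc : E → (Fin M ⊕ (K ⊕ V)) → Y}
    (hinc : ∀ e, Function.Injective (inc e)) (hL : LeafyI 2 inc) {att : E → Set (Wt a Y E)}
    {Rg Sg : SimpleGraph (Wt a Y E ⊕ E)}
    (hgood : Good B (FF (GG (tyT κ κ' v₁ M) inc (tmp B R v₁ a M)) att) Rg Sg)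
    (α : Bool) (θ : Fin a → Bool) {h₀ h₁ : Fin a} (hh₀ : θ h₀ = true) (hh₁ : θ h₁ = false)
    (P : Y → Prop) (hP : ∀ y, P y → ∀ h, (Rg.Adj (.inl (hub α h)) (.inl (pt α y)) ↔
      θ h = true)) :
    ∃ g : Y → Bool, ∀ e, (∀ i, P (inc e i)) → ¬ ∃ c, ∀ i, g (inc e i) = c := by
  classical
  have hq : 2 ≤ Nat.card V + 1 := by omega
  -- the local patterns
  choose ρ hρ using fun e => pigeon hM (loc inc Rg α e)
  have hS : ∀ y, P y → ∀ h, θ h = false → Sg.Adj (.inl (hub α h)) (.inl (pt α y)) := by
    intro y hy h hh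
    have h1 := gc_adj hgood (ff_hub _ _ _ _ α h y) true (fun hc => by
      have := (hP y hy h).1 hc
      rw [hh] at this
      exact Bool.false_ne_true this)
    exact h1
  have hpiece : ∀ e (m : Fin M) (h : Fin a),
      (FF (GG (tyT κ κ' v₁ M) inc (tmp B R v₁ a M)) att).Adj (.inl (pr α e h))
        (.inl (pt α (inc e (.inl m)))) := by
    intro e m h
    have h1 : (tmp B R v₁ a M α).Adj (.inr h) (.inl (.inl m)) := by
      rw [tmp, SimpleGraph.fromRel_adj]
      exact ⟨Sum.inr_ne_inl, Or.inr (Or.inl ⟨m, h, rfl, rfl⟩)⟩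
    exact ff_piece (tyT κ κ' v₁ M) inc (tmp B R v₁ a M) att α e (hinc e) h1
  have hRl : ∀ e m h, loc inc Rg α e m = ρ e → ρ e h = true →
      Rg.Adj (.inl (pr α e h)) (.inl (pt α (inc e (.inl m)))) := by
    intro e m h h1 h2
    rw [← h1] at h2
    exact of_decide_eq_true h2
  have hSl : ∀ e m h, loc inc Rg α e m = ρ e → ρ e h = false →
      Sg.Adj (.inl (pr α e h)) (.inl (pt α (inc e (.inl m)))) := by
    intro e m h h1 h2
    rw [← h1] at h2
    exact gc_adj hgood (hpiece e m h) true (of_decide_eq_false h2)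
  have ptinj : ∀ e, Function.Injective
      (fun m : Fin M => (Sum.inl (pt α (inc e (.inl m))) : Wt a Y E ⊕ E)) := by
    intro e m m' h
    have h1 : (inc e (.inl m)) = inc e (.inl m') := by
      simpa using h
    exact Sum.inl.inj (hinc e h1)
  -- few local blue hubs
  have hfew : ∀ e, (∀ i, P (inc e i)) →
      {h | θ h = false}.ncard + {h | ρ e h = false}.ncard ≤ a := by
    intro e he
    by_contra hcon
    push Not at hcon
    apply gc_free hgood false
    refine hK.trans ?_
    let A₁ : Set (Wt a Y E ⊕ E) := (fun h => .inl (hub α h)) '' {h | θ h = false}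
    let A₂ : Set (Wt a Y E ⊕ E) := (fun h => .inl (pr α e h)) '' {h | ρ e h = false}
    let Z : Set (Wt a Y E ⊕ E) := (fun m : Fin M => .inl (pt α (inc e (.inl m)))) ''
      {m | loc inc Rg α e m = ρ e}
    have c1 : A₁.ncard = {h | θ h = false}.ncard := by
      apply Set.ncard_image_of_injective
      intro x y hxy
      simpa using hxy
    have c2 : A₂.ncard = {h | ρ e h = false}.ncard := by
      apply Set.ncard_image_of_injective
      intro x y hxy
      simpa using hxy
    have c3 : Z.ncard = {m | loc inc Rg α e m = ρ e}.ncard :=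
      Set.ncard_image_of_injective _ (ptinj e)
    have c4 : Disjoint A₁ A₂ := by
      rw [Set.disjoint_left]
      rintro _ ⟨h, _, rfl⟩ ⟨h', _, hh⟩
      simp at hh
    have c5 : (A₁ ∪ A₂).ncard = A₁.ncard + A₂.ncard :=
      Set.ncard_union_eq c4 (Set.toFinite _) (Set.toFinite _)
    refine kk_set (Sg) (A₁ ∪ A₂) Z (Set.toFinite _) (Set.toFinite _) (by omega) ?_ ?_
    · rw [c3]
      have := hρ e
      omega
    · rintro x hx z ⟨m, hm, rfl⟩
      rcases hx with ⟨h, hh, rfl⟩ | ⟨h, hh, rfl⟩
      · exact hS _ (he _) h hh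
      · exact hSl e m h hm hh
  -- the sets are disjoint
  have hdis : ∀ e e', (∀ i, P (inc e i)) → (∀ i, P (inc e' i)) → e ≠ e' →
      ∀ m m', loc inc Rg α e m = ρ e → loc inc Rg α e' m' = ρ e' →
      inc e (.inl m) ≠ inc e' (.inl m') := by
    intro e e' he he' hne m m' hm hm' hcom
    -- two hyperedges have at most one common point
    have hone : ∀ i j i' j', inc e i = inc e' i' → inc e j = inc e' j' → i = j := by
      intro i j i' j' h1 h2
      obtain ⟨x, hx, hx'⟩ := hL {e, e'} ⟨e, Or.inl rfl⟩ (by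
        rw [Set.ncard_pair hne])
      rcases hx with rfl | hx
      · exact hx' i j ⟨e', Or.inr rfl, hne.symm, i', h1.symm⟩ ⟨e', Or.inr rfl, hne.symm, j', h2.symm⟩
      · have hx : x = e' := hx
        subst hx
        have h3 := hx' i' j' ⟨e, Or.inl rfl, hne, i, h1⟩ ⟨e, Or.inl rfl, hne, j, h2⟩
        apply hinc e
        rw [h1, h2, h3]
    -- the numbers
    have hi1 : 1 ≤ {h | θ h = true}.ncard := (Set.ncard_pos (Set.toFinite _)).2 ⟨h₀, hh₀⟩
    have hj1 : 1 ≤ {h | θ h = false}.ncard := (Set.ncard_pos (Set.toFinite _)).2 ⟨h₁, hh₁⟩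
    have hij := count θ
    have hloc : ∀ e, (∀ i, P (inc e i)) → {h | θ h = false}.ncard ≤ {h | ρ e h = true}.ncard := by
      intro e he
      have h1 := hfew e he
      have h2 := count (ρ e)
      omega
    obtain ⟨f, hf, hf'⟩ := exists_fin {h | θ h = true} (Set.toFinite _) le_rfl
    obtain ⟨u, hu, hu'⟩ := exists_fin {h | ρ e h = true} (Set.toFinite _) (hloc e he)
    obtain ⟨u', hu1, hu1'⟩ := exists_fin {h | ρ e' h = true} (Set.toFinite _) (hloc e' he')
    have hq1 : Nat.card V ≤ ({m | loc inc Rg α e m = ρ e} \ {m}).ncard := by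
      have h1 := hρ e
      have h2 := Set.ncard_sdiff_singleton_add_one (s := {m | loc inc Rg α e m = ρ e}) hm
        (Set.toFinite _)
      omega
    have hq2 : Nat.card V ≤ ({m | loc inc Rg α e' m = ρ e'} \ {m'}).ncard := by
      have h1 := hρ e'
      have h2 := Set.ncard_sdiff_singleton_add_one (s := {m | loc inc Rg α e' m = ρ e'}) hm'
        (Set.toFinite _)
      omega
    obtain ⟨w, hw, hw'⟩ := exists_fin _ (Set.toFinite _) hq1
    obtain ⟨w', hw1, hw1'⟩ := exists_fin _ (Set.toFinite _) hq2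
    apply gc_free hgood true
    refine (hMix _ _ hi1 hj1 hij).trans ?_
    refine mh Rg (fun h => .inl (hub α (f h)))
      (fun β h => if β = true then .inl (pr α e (u h)) else .inl (pr α e' (u' h)))
      (fun β z => if β = true then .inl (pt α (inc e (.inl (w z))))
        else .inl (pt α (inc e' (.inl (w' z)))))
      (.inl (pt α (inc e (.inl m)))) ?_ ?_ ?_ ?_ ?_ ?_ ?_ ?_ ?_ ?_ ?_ ?_
    · intro x y hxy
      exact hf (by simpa using hxy)
    · rintro (_ | _) x y hxy
      · exact hu1 (by simpa using hxy)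
      · exact hu (by simpa using hxy)
    · rintro (_ | _) x y hxy
      · have h1 : inc e' (.inl (w' x)) = inc e' (.inl (w' y)) := by simpa using hxy
        exact hw1 (Sum.inl.inj (hinc e' h1))
      · have h1 : inc e (.inl (w x)) = inc e (.inl (w y)) := by simpa using hxy
        exact hw (Sum.inl.inj (hinc e h1))
    · rintro h (_ | _) h' hh
      · simp at hh
      · simp at hh
    · intro h h' hh
      simp only [if_true, Bool.false_eq_true, if_false, Sum.inl.injEq, Sum.inr.injEq,
        Prod.mk.injEq] at hh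
      exact hne hh.2.1
    · intro z z' hh
      have h1 : inc e (.inl (w z)) = inc e' (.inl (w' z')) := by simpa using hh
      have h2 := hone _ _ _ _ h1 hcom
      exact (hw' z).2 (Sum.inl.inj h2)
    · rintro (_ | _) z hh
      · have h1 : inc e' (.inl (w' z)) = inc e (.inl m) := by simpa using hh
        rw [hcom] at h1
        exact (hw1' z).2 (Sum.inl.inj (hinc e' h1))
      · have h1 : inc e (.inl (w z)) = inc e (.inl m) := by simpa using hh
        exact (hw' z).2 (Sum.inl.inj (hinc e h1))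
    · rintro (_ | _) h (_ | _) z hh <;> simp at hh
    · rintro h (_ | _) z
      · exact (hP _ (he' _) _).2 (hf' h)
      · exact (hP _ (he _) _).2 (hf' h)
    · intro h
      exact (hP _ (he _) _).2 (hf' h)
    · rintro (_ | _) h z
      · exact hRl e' (w' z) (u' h) (hw1' z).1 (hu1' h)
      · exact hRl e (w z) (u h) (hw' z).1 (hu' h)
    · rintro (_ | _) h
      · have h1 := hRl e' m' (u' h) hm' (hu1' h)
        rw [← hcom] at h1
        exact h1
      · exact hRl e m (u h) hm (hu' h)
  -- the colouring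
  have htwo : ∀ e, ∃ l l' : Fin M, loc inc Rg α e l = ρ e ∧ loc inc Rg α e l' = ρ e ∧ l' ≠ l := by
    intro e
    have h1 : 1 < {m | loc inc Rg α e m = ρ e}.ncard := by
      have := hρ e
      omega
    obtain ⟨l, hl, l', hl', hne⟩ := (Set.one_lt_ncard (Set.toFinite _)).1 h1
    exact ⟨l, l', hl, hl', hne.symm⟩
  choose l l' hl hl' hll using htwo
  refine ⟨fun y => decide (∃ e, (∀ i, P (inc e i)) ∧ y = inc e (.inl (l e))), ?_⟩
  rintro e he ⟨c, hc⟩
  have h1 := hc (.inl (l e))
  have h2 := hc (.inl (l' e))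
  have h3 : decide (∃ e', (∀ i, P (inc e' i)) ∧ inc e (.inl (l e)) = inc e' (.inl (l e'))) =
      true := decide_eq_true ⟨e, he, rfl⟩
  have h4 : decide (∃ e', (∀ i, P (inc e' i)) ∧ inc e (.inl (l' e)) = inc e' (.inl (l e'))) =
      true := by
    rw [← h3]
    exact h2.trans h1.symm
  obtain ⟨e', he', h5⟩ := of_decide_eq_true h4
  by_cases hee : e = e'
  · subst hee
    exact hll e (Sum.inl.inj (hinc e h5))
  · exact hdis e e' he he' hee (l' e) (l e') (hl' e) (hl e') h5

end mixed

end Pool.Agent.TWC80.H80
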