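import Pool.Agent.Helper80_TWC.Stmts
import Pool.Agent.Helper80_RS.Glue

/-!
# Squad TWC, assembly (helper80)
-/

set_option autoImplicit false

open SimpleGraph

namespace Pool.Agent.TWC80.H80

open Pool.Agent.RS80 Pool.Agent.RS81 Pool.Agent.SEP60

theorem LeafyI.mono {I Y E : Type} {L L' : ℕ} {inc : E → I → Y} (h : LeafyI L inc)
    (hL : L' ≤ L) : LeafyI L' inc :=
  fun D hD hc => h D hD (hc.trans hL)

/-- the case of an opposite cut -/
theorem opp (hyk : HykStmt) (col : ColStmt) (tmp : TmpStmt) (mul : MulStmt) (mix : MixStmt)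
    (kpm : KpmStmt) (arr : ArrStmt) (qst : QstStmt) {V : Type} [Finite V] {B : SimpleGraph V}
    (hB : TwoConn B) (hc : B.Colorable 2) {κ : V → Bool} (hκ : ∀ x y, B.Adj x y → κ x ≠ κ y)
    {x₀ y₀ : V} (hxy : κ x₀ ≠ κ y₀) (hcut : ¬ (B.induce {x₀, y₀}ᶜ).Preconnected)
    (hle : {v | κ v = κ x₀}.ncard ≤ {v | κ v ≠ κ x₀}.ncard) : RamseySimple B := by
  classical
  -- the minimum degree
  obtain ⟨u, hu⟩ : ∃ u, ∀ v, (B.neighborSet u).ncard ≤ (B.neighborSet v).ncard := by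
    have : Nonempty V := ⟨x₀⟩
    exact Finite.exists_min _
  have hδ : 1 ≤ (B.neighborSet u).ncard := by
    obtain ⟨w, hw⟩ := hB.exists_adj u
    exact (Set.ncard_pos (Set.toFinite _)).2 ⟨w, hw⟩
  have hV : 3 ≤ Nat.card V := hB.1
  -- the size of the smaller side
  obtain ⟨w, hwx, hw⟩ := hB.exists_adj_ne y₀ x₀
  have hwc : κ w = κ x₀ := by
    have h1 := hκ _ _ hw
    revert h1 hxy
    generalize κ w = p
    generalize κ x₀ = q
    generalize κ y₀ = r
    revert p q r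
    decide
  have h2 : 2 ≤ {v | κ v = κ x₀}.ncard := by
    have h3 : ({w, x₀} : Set V) ⊆ {v | κ v = κ x₀} := by
      rintro v (rfl | h)
      · exact hwc
      · rw [Set.mem_singleton_iff] at h
        exact h ▸ rfl
    have h4 := Set.ncard_le_ncard h3 (Set.toFinite _)
    rwa [Set.ncard_pair hwx] at h4
  obtain ⟨a, ha⟩ : ∃ a, {v | κ v = κ x₀}.ncard = a + 1 :=
    ⟨{v | κ v = κ x₀}.ncard - 1, by omega⟩
  have ha1 : 1 ≤ a := by omega
  obtain ⟨hfree, hcont⟩ := kpm V B κ (κ x₀) a hB.2.1 hκ ha (by omega)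
  obtain ⟨K, _, R, κ', S, hRc, hRf, hRκ, hS, hSc, hT⟩ := qst V B _ hB hc hu ⟨u, rfl⟩
  obtain ⟨Y, E, _, _, inc, hinc, hL, hχ⟩ :=
    hyk (Fin (2 ^ a * Nat.card V + 1) ⊕ (K ⊕ V)) (Co a (Nat.card V)) (Nat.card V ^ 2)
      (by
        rw [Nat.card_sum, Nat.card_sum]
        omega)
      (Nat.one_le_iff_ne_zero.2 (by positivity))
  have hpos : 2 ≤ Nat.card V ^ 2 := by nlinarith
  have h1 : InC B (GG (tyT κ κ' x₀ (2 ^ a * Nat.card V + 1)) inc
      (TWC80.tmp B R x₀ a (2 ^ a * Nat.card V + 1))) :=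
    col V B hB a hfree _ Y E _ inc _ hinc hL (tmp V B hB K R x₀ a _ hfree hRf)
  have h3 := arr V B κ x₀ a ((B.neighborSet u).ncard) ha1 hκ (by omega) hcont
    (fun i j hi hj hij => mix V B κ hB hκ x₀ y₀ hxy hcut i j hi hj (by omega))
    K R κ' S hRκ hS hSc hδ hT (2 ^ a * Nat.card V + 1) (Nat.lt_succ_self _) Y E inc hinc
    (LeafyI.mono hL hpos) hχ
  refine mul V B _ hδ hu ⟨u, rfl⟩ _ E _ (attS inc S) (fun e => ?_) h1 h3
  rw [← hSc]
  have h4 : attS (a := a) inc S e =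
      (fun s => (ou (inc e (.inr (.inl s))) : Wt a Y E)) '' S := by
    ext x
    constructor
    · rintro ⟨s, hs, rfl⟩
      exact ⟨s, hs, rfl⟩
    · rintro ⟨s, hs, rfl⟩
      exact ⟨s, hs, rfl⟩
  rw [h4]
  exact Set.ncard_image_le (Set.toFinite _)

/-- The theorem. -/
theorem top (hyk : HykStmt) (col : ColStmt) (tmp : TmpStmt) (mul : MulStmt) (mix : MixStmt)
    (kpm : KpmStmt) (arr : ArrStmt) (qst : QstStmt) (bsm : BsmStmt) : TopStmt := by
  intro V _ B hB hc
  by_cases hN : NoOpp B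
  · exact bsm V B hB hc hN
  · unfold NoOpp at hN
    push Not at hN
    obtain ⟨κ, hκ, x, y, hxy, hcut⟩ := hN
    have hcl : ∀ z w : V, κ z ≠ κ w → {v | κ v ≠ κ z} = {v | κ v = κ w} := by
      intro z w h
      ext v
      show κ v ≠ κ z ↔ κ v = κ w
      revert h
      generalize κ v = p
      generalize κ z = q
      generalize κ w = r
      revert p q r
      decide
    rcases le_total {v | κ v = κ x}.ncard {v | κ v = κ y}.ncard with h | h
    · exact opp hyk col tmp mul mix kpm arr qst hB hc hκ hxy hcut (by rw [hcl x y hxy]; exact h)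
    · rw [Set.pair_comm] at hcut
      exact opp hyk col tmp mul mix kpm arr qst hB hc hκ hxy.symm hcut
        (by rw [hcl y x hxy.symm]; exact h)

end Pool.Agent.TWC80.H80
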