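import Pool.Agent.Helper80_TWC.Stmts

/-!
# Squad TWC, module ARR, part A: basic lemmas (helper80)
-/

set_option autoImplicit false

open SimpleGraph

namespace Pool.Agent.TWC80.H80

open Pool.Agent.RS80 Pool.Agent.RS81 Pool.Agent.SEP60

variable {X : Type}

theorem kk (G : SimpleGraph X) {m n : ℕ} (f : Fin m → X) (g : Fin n → X)
    (hf : Function.Injective f) (hg : Function.Injective g) (h : ∀ i j, G.Adj (f i) (g j)) :
    completeBipartiteGraph (Fin m) (Fin n) ⊑ G := by
  refine ⟨⟨⟨Sum.elim f g, ?_⟩, ?_⟩⟩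
  · rintro (i | i) (j | j) hij
    · simp at hij
    · exact h i j
    · exact (h j i).symm
    · simp at hij
  · rintro (i | i) (j | j) hij
    · exact congrArg Sum.inl (hf hij)
    · exact absurd hij (h i j).ne
    · exact absurd hij.symm (h j i).ne
    · exact congrArg Sum.inr (hg hij)

/-- an injection of `Fin m` into a large finite set -/
theorem exists_fin (A : Set X) (hA : A.Finite) {m : ℕ} (h : m ≤ A.ncard) :
    ∃ f : Fin m → X, Function.Injective f ∧ ∀ i, f i ∈ A := by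
  classical
  obtain ⟨B, hB, hc⟩ := Set.exists_subset_card_eq h
  have : Finite B := Set.Finite.subset hA hB
  have e : B ≃ Fin m := by
    have := Fintype.ofFinite B
    refine Fintype.equivFinOfCardEq ?_
    rw [← Nat.card_eq_fintype_card, Nat.card_coe_set_eq, hc]
  exact ⟨fun i => (e.symm i).1, fun i j hij => e.symm.injective (Subtype.ext hij),
    fun i => hB (e.symm i).2⟩

theorem kk_set (G : SimpleGraph X) {m n : ℕ} (A Z : Set X) (hA : A.Finite) (hZ : Z.Finite)
    (h1 : m ≤ A.ncard) (h2 : n ≤ Z.ncard) (h : ∀ x ∈ A, ∀ z ∈ Z, G.Adj x z) :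
    completeBipartiteGraph (Fin m) (Fin n) ⊑ G := by
  obtain ⟨f, hf, hf'⟩ := exists_fin A hA h1
  obtain ⟨g, hg, hg'⟩ := exists_fin Z hZ h2
  exact kk G f g hf hg (fun i j => h _ (hf' i) _ (hg' j))

/-- embedding of `MixHost` -/
theorem mh (G : SimpleGraph X) {i j q : ℕ} (f : Fin i → X) (f' : Bool → Fin j → X)
    (g : Bool → Fin q → X) (n : X) (hf : Function.Injective f)
    (hf' : ∀ β, Function.Injective (f' β)) (hg : ∀ β, Function.Injective (g β))
    (hff : ∀ h β h', f h ≠ f' β h') (hf2 : ∀ h h', f' true h ≠ f' false h')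
    (hg2 : ∀ h h', g true h ≠ g false h') (hgn : ∀ β h, g β h ≠ n)
    (hfg : ∀ β h β' z, f' β h ≠ g β' z)
    (h1 : ∀ h β z, G.Adj (f h) (g β z)) (h2 : ∀ h, G.Adj (f h) n)
    (h3 : ∀ β h z, G.Adj (f' β h) (g β z)) (h4 : ∀ β h, G.Adj (f' β h) n) :
    MixHost i j q ⊑ G := by
  refine ⟨⟨⟨Sum.elim (Sum.elim f (fun p => f' p.1 p.2)) (Sum.elim (fun p => g p.1 p.2)
    (fun _ => n)), ?_⟩, ?_⟩⟩
  · have key : ∀ x y : (Fin i ⊕ (Bool × Fin j)) ⊕ ((Bool × Fin q) ⊕ Unit),
        ((∃ h z, x = .inl (.inl h) ∧ y = .inr z) ∨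
        (∃ β h z, x = .inl (.inr (β, h)) ∧ y = .inr (.inl (β, z))) ∨
        (∃ β h, x = .inl (.inr (β, h)) ∧ y = .inr (.inr ()))) →
        G.Adj (Sum.elim (Sum.elim f (fun p => f' p.1 p.2)) (Sum.elim (fun p => g p.1 p.2)
          (fun _ => n)) x) (Sum.elim (Sum.elim f (fun p => f' p.1 p.2))
          (Sum.elim (fun p => g p.1 p.2) (fun _ => n)) y) := by
      rintro x y (⟨h, (⟨β, z⟩ | u), rfl, rfl⟩ | ⟨β, h, z, rfl, rfl⟩ | ⟨β, h, rfl, rfl⟩)
      · exact h1 h β z
      · exact h2 h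
      · exact h3 β h z
      · exact h4 β h
    intro x y hxy
    rw [MixHost, SimpleGraph.fromRel_adj] at hxy
    rcases hxy.2 with h | h
    · exact key x y h
    · exact (key y x h).symm
  · have hl : ∀ β β' h h', f' β h = f' β' h' → (β, h) = (β', h') := by
      intro β β' h h' e
      cases β <;> cases β'
      · exact Prod.ext rfl (hf' _ e)
      · exact absurd e.symm (hf2 _ _)
      · exact absurd e (hf2 _ _)
      · exact Prod.ext rfl (hf' _ e)
    have hr : ∀ β β' h h', g β h = g β' h' → (β, h) = (β', h') := by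
      intro β β' h h' e
      cases β <;> cases β'
      · exact Prod.ext rfl (hg _ e)
      · exact absurd e.symm (hg2 _ _)
      · exact absurd e (hg2 _ _)
      · exact Prod.ext rfl (hg _ e)
    rintro ((h | ⟨β, h⟩) | (⟨β, z⟩ | u)) ((h' | ⟨β', h'⟩) | (⟨β', z'⟩ | u')) e
    · exact congrArg _ (congrArg _ (hf e))
    · exact absurd e (hff _ _ _)
    · exact absurd e (h1 h β' z').ne
    · exact absurd e (h2 h).ne
    · exact absurd e.symm (hff _ _ _)
    · exact congrArg _ (congrArg _ (hl _ _ _ _ e))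
    · exact absurd e (hfg _ _ _ _)
    · exact absurd e (h4 β h).ne
    · exact absurd e.symm (h1 h' β z).ne
    · exact absurd e.symm (hfg _ _ _ _)
    · exact congrArg _ (congrArg _ (hr _ _ _ _ e))
    · exact absurd e (hgn _ _)
    · exact absurd e.symm (h2 h').ne
    · exact absurd e.symm (h4 β' h').ne
    · exact absurd e.symm (hgn _ _)
    · rfl

/-! ### Adjacency in `FF (GG ..) ..` -/

section adj

variable {V K Y E : Type} {a M : ℕ} {I : Type}

theorem ff_hub (ty : I → Bool) (inc : E → I → Y) (P : Bool → SimpleGraph (I ⊕ Fin a))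
    (att : E → Set (Wt a Y E)) (α : Bool) (h : Fin a) (y : Y) :
    (FF (GG ty inc P) att).Adj (.inl (hub α h)) (.inl (pt α y)) := by
  show (GG ty inc P).Adj (hub α h) (pt α y)
  rw [GG, SimpleGraph.fromRel_adj]
  exact ⟨fun e => (Sum.inl_ne_inr e), Or.inl (Or.inl ⟨α, h, y, rfl, rfl⟩)⟩

theorem om_inj {Y E : Type} (α : Bool) :
    Function.Injective (om α : (Y × Bool) ⊕ (E × Fin a) → Wt a Y E) := by
  rintro (⟨y, b⟩ | ⟨e, h⟩) (⟨y', b'⟩ | ⟨e', h'⟩) hh
  · cases b <;> cases b' <;> simp_all [om]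
  · cases b <;> simp [om] at hh
  · cases b' <;> simp [om] at hh
  · simp only [om, pr, Sum.inr.injEq, Prod.mk.injEq, true_and] at hh
    rw [hh.1, hh.2]

theorem em_inj {I Y E Q : Type} (ty : I → Bool) (inc : E → I → Y) (e : E)
    (h : Function.Injective (inc e)) : Function.Injective (em (Q := Q) ty inc e) := by
  rintro (i | z) (j | w) hh
  · simp only [em, Sum.inl.injEq, Prod.mk.injEq] at hh
    exact congrArg _ (h hh.1)
  · simp [em] at hh
  · simp [em] at hh
  · simp only [em, Sum.inr.injEq, Prod.mk.injEq, true_and] at hh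
    exact congrArg _ hh

theorem ff_piece (ty : I → Bool) (inc : E → I → Y) (P : Bool → SimpleGraph (I ⊕ Fin a))
    (att : E → Set (Wt a Y E)) (α : Bool) (e : E) (hi : Function.Injective (inc e))
    {z z' : I ⊕ Fin a} (h : (P α).Adj z z') :
    (FF (GG ty inc P) att).Adj (.inl (om α (em ty inc e z))) (.inl (om α (em ty inc e z'))) := by
  show (GG ty inc P).Adj _ _
  have hne : em ty inc e z ≠ em ty inc e z' := fun hh => h.ne (em_inj ty inc e hi hh)
  rw [GG, SimpleGraph.fromRel_adj]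
  refine ⟨fun hh => hne (om_inj α hh), Or.inl (Or.inr ⟨α, _, _, ?_, rfl, rfl⟩)⟩
  rw [Sys, SimpleGraph.fromRel_adj]
  exact ⟨hne, Or.inl ⟨e, z, z', h, rfl, rfl⟩⟩

end adj

end Pool.Agent.TWC80.H80
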