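import Pool.Agent.Helper80_TWC.ArrB

/-!
# Squad TWC, module ARR, part C: pure hub patterns, and the theorem (helper80)
-/

set_option autoImplicit false

open SimpleGraph

namespace Pool.Agent.TWC80.H80

open Pool.Agent.RS80 Pool.Agent.RS81 Pool.Agent.SEP60

section pure

variable {V K Y E : Type} {a M : ℕ}

theorem pureCase (dgc : DgcStmt) [Finite V] {B : SimpleGraph V} {κ : V → Bool} {v₁ : V} {δ : ℕ}
    (_ha : 1 ≤ a) (hκ : ∀ x y, B.Adj x y → κ x ≠ κ y)
    (hK : B ⊑ completeBipartiteGraph (Fin (a + 1)) (Fin (Nat.card V)))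
    [Finite K] {R : SimpleGraph K} {κ' : K → Bool} {S : Set K}
    (hR : ∀ x y, R.Adj x y → κ' x ≠ κ' y) (hS : ∀ s ∈ S, κ' s = true)
    (hSc : S.ncard = 2 * δ - 1) (hδ : 1 ≤ δ) (hT : ∀ T ⊆ S, T.ncard = δ → B ⊑ cone R T)
    [Finite Y] [Finite E] {inc : E → (Fin M ⊕ (K ⊕ V)) → Y}
    (hinc : ∀ e, Function.Injective (inc e))
    {Rg Sg : SimpleGraph (Wt a Y E ⊕ E)}
    (hgood : Good B (FF (GG (tyT κ κ' v₁ M) inc (tmp B R v₁ a M)) (attS inc S)) Rg Sg)
    (k : Bool → Bool) (P : Y → Prop)
    (hP : ∀ y, P y → ∀ α h, (Rg.Adj (.inl (hub α h)) (.inl (pt α y)) ↔ k α = true)) :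
    ∃ g : Y → Fin (4 * Nat.card V + 1), ∀ e, (∀ i, P (inc e i)) →
      ¬ ∃ c, ∀ i, g (inc e i) = c := by
  classical
  -- the hubs have the colour `k α`
  have hhub : ∀ y, P y → ∀ α h, (gc Rg Sg (k α)).Adj (.inl (hub α h)) (.inl (pt α y)) := by
    intro y hy α h
    by_cases hk : k α = true
    · have h1 := (hP y hy α h).2 hk
      rw [hk]
      exact h1
    · have h1 := gc_adj hgood (ff_hub _ _ _ _ α h y) true (fun hc => hk ((hP y hy α h).1 hc))
      rw [Bool.eq_false_of_not_eq_true hk]
      exact h1
  -- the digraph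
  let r : Y → Y → Prop := fun v w => ∃ α, P w ∧ (gc Rg Sg (k α)).Adj (.inl (ou v)) (.inl (pt α w))
  have hr1 : ∀ v α, {w | P w ∧ (gc Rg Sg (k α)).Adj (.inl (ou v)) (.inl (pt α w))}.ncard ≤
      Nat.card V := by
    intro v α
    by_contra hcon
    push Not at hcon
    apply gc_free hgood (k α)
    refine hK.trans ?_
    let A₁ : Set (Wt a Y E ⊕ E) := Set.range (fun h : Fin a => .inl (hub α h))
    let Z : Set (Wt a Y E ⊕ E) := (fun w => .inl (pt α w)) ''
      {w | P w ∧ (gc Rg Sg (k α)).Adj (.inl (ou v)) (.inl (pt α w))}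
    have c1 : A₁.ncard = a := by
      have h1 : A₁ = (fun h : Fin a => (Sum.inl (hub α h) : Wt a Y E ⊕ E)) '' Set.univ := by
        rw [Set.image_univ]
      rw [h1, Set.ncard_image_of_injective, Set.ncard_univ, Nat.card_eq_fintype_card,
        Fintype.card_fin]
      intro x y hxy
      simpa using hxy
    have c2 : (insert (Sum.inl (ou v)) A₁).ncard = A₁.ncard + 1 := by
      apply Set.ncard_insert_of_notMem _ (Set.toFinite _)
      rintro ⟨h, hh⟩
      simp at hh
    have c3 : Z.ncard = {w | P w ∧ (gc Rg Sg (k α)).Adj (.inl (ou v)) (.inl (pt α w))}.ncard := by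
      apply Set.ncard_image_of_injective
      intro x y hxy
      simpa using hxy
    refine kk_set (gc Rg Sg (k α)) (insert (Sum.inl (ou v)) A₁) Z (Set.toFinite _)
      (Set.toFinite _) (by omega) (by omega) ?_
    rintro x hx z ⟨w, hw, rfl⟩
    rcases hx with rfl | ⟨h, rfl⟩
    · exact hw.2
    · exact hhub w hw.1 α h
  have hr2 : ∀ v, {w | r v w}.ncard ≤ 2 * Nat.card V := by
    intro v
    have h1 : {w | r v w} ⊆
        {w | P w ∧ (gc Rg Sg (k true)).Adj (.inl (ou v)) (.inl (pt true w))} ∪
        {w | P w ∧ (gc Rg Sg (k false)).Adj (.inl (ou v)) (.inl (pt false w))} := by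
      rintro w ⟨α, hw⟩
      cases α
      · exact Or.inr hw
      · exact Or.inl hw
    have h2 := Set.ncard_le_ncard h1 (Set.toFinite _)
    have h3 := Set.ncard_union_le
      {w | P w ∧ (gc Rg Sg (k true)).Adj (.inl (ou v)) (.inl (pt true w))}
      {w | P w ∧ (gc Rg Sg (k false)).Adj (.inl (ou v)) (.inl (pt false w))}
    have h4 := hr1 v true
    have h5 := hr1 v false
    omega
  obtain ⟨g, hg⟩ := dgc Y r (2 * Nat.card V) hr2
  refine ⟨fun y => Fin.cast (by ring) (g y), ?_⟩
  rintro e he ⟨c, hc⟩
  have hnr : ∀ i i', i ≠ i' → ∀ α,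
      ¬ (gc Rg Sg (k α)).Adj (.inl (ou (inc e i))) (.inl (pt α (inc e i'))) := by
    intro i i' hii α hadj
    refine hg (inc e i) (inc e i') (fun h => hii (hinc e h)) ⟨α, he i', hadj⟩ ?_
    have h1 := hc i
    have h2 := hc i'
    rw [← h2] at h1
    exact Fin.cast_injective _ h1
  -- forced colours
  have hforce : ∀ i i', ∀ α, tyT κ κ' v₁ M i = false → tyT κ κ' v₁ M i' = true →
      (tmp B R v₁ a M α).Adj (.inl i) (.inl i') →
      (gc Rg Sg !(k α)).Adj (.inl (ou (inc e i))) (.inl (pt α (inc e i'))) := by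
    intro i i' α h1 h2 h3
    have h4 := ff_piece (tyT κ κ' v₁ M) inc (tmp B R v₁ a M) (attS inc S) α e (hinc e) h3
    have h5 : om (a := a) (E := E) α (em (tyT κ κ' v₁ M) inc e (.inl i)) = ou (inc e i) := by
      show om α (.inl (inc e i, tyT κ κ' v₁ M i)) = _
      rw [h1]
      rfl
    have h6 : om (a := a) (E := E) α (em (tyT κ κ' v₁ M) inc e (.inl i')) = pt α (inc e i') := by
      show om α (.inl (inc e i', tyT κ κ' v₁ M i')) = _
      rw [h2]
      rfl
    rw [h5, h6] at h4
    refine gc_adj hgood h4 (k α) (hnr i i' ?_ α)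
    rintro rfl
    rw [h1] at h2
    exact Bool.false_ne_true h2
  by_cases hk : k true = k false
  · -- a monochromatic copy of `B`
    apply gc_free hgood (!(k true))
    let φ : V → Wt a Y E ⊕ E := fun v =>
      if κ v = κ v₁ then (if v = v₁ then .inl (pt false (inc e (.inr (.inr v))))
        else .inl (pt true (inc e (.inr (.inr v))))) else .inl (ou (inc e (.inr (.inr v))))
    have key : ∀ x y, B.Adj x y → κ x ≠ κ v₁ → κ y = κ v₁ →
        (gc Rg Sg !(k true)).Adj (φ x) (φ y) := by
      intro x y hxy hx hy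
      have hty1 : tyT κ κ' v₁ M (.inr (.inr x)) = false := by
        show (κ x == κ v₁) = false
        simpa using hx
      have hty2 : tyT κ κ' v₁ M (.inr (.inr y)) = true := by
        show (κ y == κ v₁) = true
        simpa using hy
      have hx1 : x ≠ v₁ := fun h => hx (h ▸ rfl)
      by_cases hy1 : y = v₁
      · have h1 : (tmp B R v₁ a M false).Adj (.inl (.inr (.inr x))) (.inl (.inr (.inr y))) := by
          rw [tmp, SimpleGraph.fromRel_adj]
          refine ⟨fun h => hxy.ne ?_, Or.inl (Or.inr (Or.inr ⟨x, y, hxy, ?_, rfl, rfl⟩))⟩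
          · simpa using h
          · rw [if_neg Bool.false_ne_true]
            exact Or.inr hy1
        have h2 := hforce _ _ false hty1 hty2 h1
        rw [← hk] at h2
        have e1 : φ x = .inl (ou (inc e (.inr (.inr x)))) := if_neg hx
        have e2 : φ y = .inl (pt false (inc e (.inr (.inr y)))) := by
          simp only [φ]
          rw [if_pos hy, if_pos hy1]
        rw [e1, e2]
        exact h2
      · have h1 : (tmp B R v₁ a M true).Adj (.inl (.inr (.inr x))) (.inl (.inr (.inr y))) := by
          rw [tmp, SimpleGraph.fromRel_adj]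
          refine ⟨fun h => hxy.ne ?_, Or.inl (Or.inr (Or.inr ⟨x, y, hxy, ?_, rfl, rfl⟩))⟩
          · simpa using h
          · rw [if_pos rfl]
            exact ⟨hx1, hy1⟩
        have h2 := hforce _ _ true hty1 hty2 h1
        have e1 : φ x = .inl (ou (inc e (.inr (.inr x)))) := if_neg hx
        have e2 : φ y = .inl (pt true (inc e (.inr (.inr y)))) := by
          simp only [φ]
          rw [if_pos hy, if_neg hy1]
        rw [e1, e2]
        exact h2
    refine ⟨⟨⟨φ, ?_⟩, ?_⟩⟩
    · intro x y hxy
      by_cases hx : κ x = κ v₁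
      · have hy : κ y ≠ κ v₁ := fun h => hκ x y hxy (hx.trans h.symm)
        exact (key y x hxy.symm hy hx).symm
      · have hy : κ y = κ v₁ := by
          have h1 := hκ x y hxy
          revert h1 hx
          generalize κ x = p
          generalize κ y = q
          generalize κ v₁ = s
          revert p q s
          decide
        exact key x y hxy hx hy
    · intro x y hxy
      have h1 : inc e (.inr (.inr x)) = inc e (.inr (.inr y)) := by
        simp only [RelHom.coeFn_mk, φ] at hxy
        split_ifs at hxy <;> simpa using hxy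
      exact Sum.inr.inj (Sum.inr.inj (hinc e h1))
  · -- `R` in both colours
    have hα : ∀ c : Bool, ∃ α, (!(k α)) = c := by
      intro c
      by_cases h : (!(k true)) = c
      · exact ⟨true, h⟩
      · refine ⟨false, ?_⟩
        revert h hk
        generalize k true = p
        generalize k false = q
        revert p q c
        decide
    let Tc : Bool → Set K := fun c =>
      {s | s ∈ S ∧ (gc Rg Sg c).Adj (.inl (ou (inc e (.inr (.inl s))))) (.inr e)}
    have hun : S ⊆ Tc true ∪ Tc false := by
      intro s hs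
      have h1 : (FF (GG (tyT κ κ' v₁ M) inc (tmp B R v₁ a M)) (attS inc S)).Adj
          (.inl (ou (inc e (.inr (.inl s))))) (.inr e) := ⟨s, hs, rfl⟩
      by_cases h2 : (gc Rg Sg true).Adj (.inl (ou (inc e (.inr (.inl s))))) (.inr e)
      · exact Or.inl ⟨hs, h2⟩
      · exact Or.inr ⟨hs, gc_adj hgood h1 true h2⟩
    have hbig : ∃ c, δ ≤ (Tc c).ncard := by
      by_contra hcon
      push Not at hcon
      have h1 := hcon true
      have h2 := hcon false
      have h3 := Set.ncard_le_ncard hun (Set.toFinite _)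
      have h4 := Set.ncard_union_le (Tc true) (Tc false)
      omega
    obtain ⟨c, hc1⟩ := hbig
    obtain ⟨T, hTs, hTc⟩ := Set.exists_subset_card_eq hc1
    obtain ⟨α, hα⟩ := hα c
    apply gc_free hgood c
    refine (hT T (fun s hs => (hTs hs).1) hTc).trans ?_
    let φ : K → Wt a Y E ⊕ E := fun s =>
      if κ' s = true then .inl (ou (inc e (.inr (.inl s))))
        else .inl (pt α (inc e (.inr (.inl s))))
    have key : ∀ x y, R.Adj x y → κ' x = true → κ' y = false →
        (gc Rg Sg c).Adj (φ x) (φ y) := by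
      intro x y hxy hx hy
      have h1 : (tmp B R v₁ a M α).Adj (.inl (.inr (.inl x))) (.inl (.inr (.inl y))) := by
        rw [tmp, SimpleGraph.fromRel_adj]
        refine ⟨fun h => hxy.ne ?_, Or.inl (Or.inr (Or.inl ⟨x, y, hxy, rfl, rfl⟩))⟩
        simpa using h
      have h2 := hforce (.inr (.inl x)) (.inr (.inl y)) α
        (by show (!(κ' x)) = false; rw [hx]; rfl) (by show (!(κ' y)) = true; rw [hy]; rfl) h1
      rw [hα] at h2
      have e1 : φ x = .inl (ou (inc e (.inr (.inl x)))) := if_pos hx
      have e2 : φ y = .inl (pt α (inc e (.inr (.inl y)))) := by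
        simp only [φ]
        rw [if_neg (by rw [hy]; exact Bool.false_ne_true)]
      rw [e1, e2]
      exact h2
    have keyT : ∀ s ∈ T, (gc Rg Sg c).Adj (φ s) (.inr e) := by
      intro s hs
      have h1 := hTs hs
      have e1 : φ s = .inl (ou (inc e (.inr (.inl s)))) := if_pos (hS s h1.1)
      rw [e1]
      exact h1.2
    refine ⟨⟨⟨fun x => x.elim (.inr e) φ, ?_⟩, ?_⟩⟩
    · rintro (_ | x) (_ | y) hxy
      · exact hxy.elim
      · exact (keyT y hxy).symm
      · exact keyT x hxy
      · have hxy' : R.Adj x y := hxy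
        have h1 := hR x y hxy'
        cases hx : κ' x
        · have hy : κ' y = true := by
            rw [hx] at h1
            cases h : κ' y
            · exact absurd h.symm h1
            · rfl
          exact (key y x hxy'.symm hy hx).symm
        · have hy : κ' y = false := by
            rw [hx] at h1
            cases h : κ' y
            · rfl
            · exact absurd h.symm h1
          exact key x y hxy' hx hy
    · have hne : ∀ x, φ x ≠ .inr e := by
        intro x hx
        simp only [φ] at hx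
        split_ifs at hx
      rintro (_ | x) (_ | y) hxy
      · rfl
      · exact absurd hxy.symm (hne y)
      · exact absurd hxy (hne x)
      · have h1 : inc e (.inr (.inl x)) = inc e (.inr (.inl y)) := by
          simp only [RelHom.coeFn_mk, Option.elim, φ] at hxy
          split_ifs at hxy <;> simpa using hxy
        exact congrArg some (Sum.inl.inj (Sum.inr.inj (hinc e h1)))

end pure

end Pool.Agent.TWC80.H80
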