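import Pool.Agent.Helper60_SEP.Stmts2

/-!
# MP_ff6f12_co, squad TWC: every 2-connected bipartite graph is 2-Ramsey-simple.
Definitions and statements of the modules. Paper proof: /team-store/PAPER_TWC.md
-/

set_option autoImplicit false

open SimpleGraph

namespace Pool.Agent.TWC80

open Pool.Agent.RS80 Pool.Agent.RS81 Pool.Agent.SEP60

/-! ### Hypergraphs -/

/-- Leafy: among at most `L` hyperedges (at least one) there is one with at most one index whose
point lies in another of these hyperedges. -/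
def LeafyI {I Y E : Type} (L : ℕ) (inc : E → I → Y) : Prop :=
  ∀ D : Set E, D.Nonempty → D.ncard ≤ L → ∃ e ∈ D, ∀ i j,
    (∃ e' ∈ D, e' ≠ e ∧ ∃ l, inc e' l = inc e i) →
    (∃ e' ∈ D, e' ≠ e ∧ ∃ l, inc e' l = inc e j) → i = j

/-- HYK: leafy hypergraphs of large chromatic number. -/
def HykStmt : Prop :=
  ∀ (I C : Type) [Finite I] [Finite C] [Nonempty C] (L : ℕ), 2 ≤ Nat.card I → 1 ≤ L →
    ∃ (Y E : Type) (_ : Finite Y) (_ : Finite E) (inc : E → I → Y),
      (∀ e, Function.Injective (inc e)) ∧ LeafyI L inc ∧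
      ∀ χ : Y → C, ∃ e c, ∀ i, χ (inc e i) = c

/-- DGC: digraphs of outdegree at most `d` have chromatic number at most `2 d + 1`. -/
def DgcStmt : Prop :=
  ∀ (Y : Type) [Finite Y] (r : Y → Y → Prop) (d : ℕ), (∀ x, {y | r x y}.ncard ≤ d) →
    ∃ g : Y → Fin (2 * d + 1), ∀ x y, x ≠ y → r x y → g x ≠ g y

/-! ### Systems of pieces -/

/-- The vertex `z` of the piece `e`: the index `i` gives the point `inc e i`, marked with `ty i`;
the vertices `inr z` are private. -/
def em {I Y E Q : Type} (ty : I → Bool) (inc : E → I → Y) (e : E) :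
    I ⊕ Q → (Y × Bool) ⊕ (E × Q)
  | .inl i => .inl (inc e i, ty i)
  | .inr z => .inr (e, z)

/-- The union of copies of `P`, one for every hyperedge. -/
def Sys {I Y E Q : Type} (ty : I → Bool) (inc : E → I → Y) (P : SimpleGraph (I ⊕ Q)) :
    SimpleGraph ((Y × Bool) ⊕ (E × Q)) :=
  SimpleGraph.fromRel fun a b =>
    ∃ e z z', P.Adj z z' ∧ a = em ty inc e z ∧ b = em ty inc e z'

/-- SYS: 2-connected subgraphs of a system lie in one piece. -/
def SysStmt : Prop :=
  ∀ (V : Type) [Finite V] (B : SimpleGraph V), TwoConn B →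
    ∀ (I Y E Q : Type) [Finite I] [Finite Y] [Finite E] [Finite Q] (ty : I → Bool)
      (inc : E → I → Y) (P : SimpleGraph (I ⊕ Q)),
      (∀ e, Function.Injective (inc e)) → LeafyI (Nat.card V ^ 2) inc →
      B.Free P → B.Free (Sys ty inc P)

/-! ### The graph `G` -/

/-- Vertices: the hubs `(α, h)` of the world `α`, the points `(α, y)` of the world `α`, the outer
points `y`, and the private hubs `(α, e, h)`. -/
abbrev Wt (a : ℕ) (Y E : Type) : Type :=
  (Bool × Fin a) ⊕ ((Bool × Y) ⊕ (Y ⊕ (Bool × E × Fin a)))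

/-- hub -/
abbrev hub {a : ℕ} {Y E : Type} (α : Bool) (h : Fin a) : Wt a Y E := .inl (α, h)

/-- point of a world -/
abbrev pt {a : ℕ} {Y E : Type} (α : Bool) (y : Y) : Wt a Y E := .inr (.inl (α, y))

/-- outer point -/
abbrev ou {a : ℕ} {Y E : Type} (y : Y) : Wt a Y E := .inr (.inr (.inl y))

/-- private hub -/
abbrev pr {a : ℕ} {Y E : Type} (α : Bool) (e : E) (h : Fin a) : Wt a Y E :=
  .inr (.inr (.inr (α, e, h)))

/-- The vertices of the system of the world `α` (mark `true`: point of the world, mark `false`: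
outer point). -/
def om {a : ℕ} {Y E : Type} (α : Bool) : (Y × Bool) ⊕ (E × Fin a) → Wt a Y E
  | .inl (y, true) => pt α y
  | .inl (y, false) => ou y
  | .inr (e, h) => pr α e h

/-- All hubs of a world are joined to all points of this world; in the world `α` there is the
system of the pieces `P α`. -/
def GG {I Y E : Type} {a : ℕ} (ty : I → Bool) (inc : E → I → Y)
    (P : Bool → SimpleGraph (I ⊕ Fin a)) : SimpleGraph (Wt a Y E) :=
  SimpleGraph.fromRel fun x y =>
    (∃ α h z, x = hub α h ∧ y = pt α z) ∨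
    (∃ α u v, (Sys ty inc (P α)).Adj u v ∧ x = om α u ∧ y = om α v)

/-- COL [Sys]: the colouring of `GG`. -/
def ColStmt : Prop :=
  ∀ (V : Type) [Finite V] (B : SimpleGraph V), TwoConn B → ∀ a : ℕ,
    (∀ N, B.Free (completeBipartiteGraph (Fin a) (Fin N))) →
    ∀ (I Y E : Type) [Finite I] [Finite Y] [Finite E] (ty : I → Bool) (inc : E → I → Y)
      (P : Bool → SimpleGraph (I ⊕ Fin a)),
      (∀ e, Function.Injective (inc e)) → LeafyI (Nat.card V ^ 2) inc →
      (∀ α, B.Free (P α)) → InC B (GG ty inc P)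

/-! ### The pieces -/

/-- The piece of the world `α`: a complete bipartite graph between `M` points and the private
hubs; the graph `R`; and `B - v₁` (for `α = true`) or the star of `v₁` in `B` (for
`α = false`). -/
def tmp {V K : Type} (B : SimpleGraph V) (R : SimpleGraph K) (v₁ : V) (a M : ℕ) (α : Bool) :
    SimpleGraph ((Fin M ⊕ (K ⊕ V)) ⊕ Fin a) :=
  SimpleGraph.fromRel fun x y =>
    (∃ m h, x = .inl (.inl m) ∧ y = .inr h) ∨
    (∃ k k', R.Adj k k' ∧ x = .inl (.inr (.inl k)) ∧ y = .inl (.inr (.inl k'))) ∨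
    (∃ v v', B.Adj v v' ∧ (if α = true then v ≠ v₁ ∧ v' ≠ v₁ else v = v₁ ∨ v' = v₁) ∧
      x = .inl (.inr (.inr v)) ∧ y = .inl (.inr (.inr v')))

/-- The marks: `R` and `B` have exactly one end of every edge in the world; `κ' k = true` are
the outer points of `R`. -/
def tyT {V K : Type} (κ : V → Bool) (κ' : K → Bool) (v₁ : V) (M : ℕ) :
    Fin M ⊕ (K ⊕ V) → Bool
  | .inl _ => true
  | .inr (.inl k) => !(κ' k)
  | .inr (.inr v) => κ v == κ v₁

/-- TMP: the pieces are `B`-free. -/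
def TmpStmt : Prop :=
  ∀ (V : Type) [Finite V] (B : SimpleGraph V), TwoConn B → ∀ (K : Type) [Finite K]
    (R : SimpleGraph K) (v₁ : V) (a M : ℕ),
    (∀ N, B.Free (completeBipartiteGraph (Fin a) (Fin N))) → B.Free R →
    ∀ α, B.Free (tmp B R v₁ a M α)

/-! ### The final vertices -/

/-- `G` with a new vertex `inr e` for every `e`, joined to `att e`. -/
def FF {W E : Type} (G : SimpleGraph W) (att : E → Set W) : SimpleGraph (W ⊕ E) where
  Adj x y := match x, y with
    | .inl a, .inl b => G.Adj a b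
    | .inl a, .inr e => a ∈ att e
    | .inr e, .inl a => a ∈ att e
    | .inr _, .inr _ => False
  symm := ⟨by
    rintro (a | e) (b | e') h
    · exact G.symm.symm _ _ h
    · exact h
    · exact h
    · exact h⟩
  loopless := ⟨by
    rintro (a | e) h
    · exact G.loopless.irrefl a h
    · exact h⟩

/-- MUL [Upp]: many vertices of degree at most `2 δ - 1`. -/
def MulStmt : Prop :=
  ∀ (V : Type) [Finite V] (B : SimpleGraph V) (δ : ℕ), 1 ≤ δ →
    (∀ v, δ ≤ (B.neighborSet v).ncard) → (∃ u, (B.neighborSet u).ncard = δ) →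
    ∀ (W E : Type) [Finite W] [Finite E] (G : SimpleGraph W) (att : E → Set W),
      (∀ e, (att e).ncard ≤ 2 * δ - 1) → InC B G → ¬ InC B (FF G att) → RamseySimple B

/-! ### Embeddings -/

/-- `i` hubs joined to everything on the right; two groups of `j` hubs, each joined to its own
`q` points and to the common point `inr (inr ())`. -/
def MixHost (i j q : ℕ) :
    SimpleGraph ((Fin i ⊕ (Bool × Fin j)) ⊕ ((Bool × Fin q) ⊕ Unit)) :=
  SimpleGraph.fromRel fun x y =>
    (∃ h z, x = .inl (.inl h) ∧ y = .inr z) ∨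
    (∃ β h z, x = .inl (.inr (β, h)) ∧ y = .inr (.inl (β, z))) ∨
    (∃ β h, x = .inl (.inr (β, h)) ∧ y = .inr (.inr ()))

/-- MIX: a graph with a cut of two vertices on opposite sides embeds in `MixHost`. -/
def MixStmt : Prop :=
  ∀ (V : Type) [Finite V] (B : SimpleGraph V) (κ : V → Bool), TwoConn B →
    (∀ x y, B.Adj x y → κ x ≠ κ y) → ∀ x₀ y₀, κ x₀ ≠ κ y₀ →
    ¬ (B.induce {x₀, y₀}ᶜ).Preconnected → ∀ i j : ℕ, 1 ≤ i → 1 ≤ j →
    {v | κ v = κ x₀}.ncard = i + j + 1 → B ⊑ MixHost i j (Nat.card V)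

/-- KPM: complete bipartite graphs. -/
def KpmStmt : Prop :=
  ∀ (V : Type) [Finite V] (B : SimpleGraph V) (κ : V → Bool) (c : Bool) (a : ℕ), B.Connected →
    (∀ x y, B.Adj x y → κ x ≠ κ y) → {v | κ v = c}.ncard = a + 1 →
    a + 1 ≤ {v | κ v ≠ c}.ncard →
    (∀ N, B.Free (completeBipartiteGraph (Fin a) (Fin N))) ∧
      B ⊑ completeBipartiteGraph (Fin (a + 1)) (Fin (Nat.card V))

/-! ### The Ramsey property -/

/-- The colours used for the hypergraph. -/
abbrev Co (a q : ℕ) : Type := (Bool → Fin a → Bool) × Fin (4 * q + 1)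

/-- The attachments: the outer points of the piece `e` belonging to `S`. -/
def attS {V K Y E : Type} {a M : ℕ} (inc : E → (Fin M ⊕ (K ⊕ V)) → Y) (S : Set K) (e : E) :
    Set (Wt a Y E) :=
  {x | ∃ s ∈ S, x = ou (inc e (.inr (.inl s)))}

/-- ARR [Dgc]: every colouring has a monochromatic copy of `B`. -/
def ArrStmt : Prop :=
  ∀ (V : Type) [Finite V] (B : SimpleGraph V) (κ : V → Bool) (v₁ : V) (a δ : ℕ), 1 ≤ a →
    (∀ x y, B.Adj x y → κ x ≠ κ y) → 2 ≤ Nat.card V →
    B ⊑ completeBipartiteGraph (Fin (a + 1)) (Fin (Nat.card V)) →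
    (∀ i j : ℕ, 1 ≤ i → 1 ≤ j → i + j = a → B ⊑ MixHost i j (Nat.card V)) →
    ∀ (K : Type) [Finite K] (R : SimpleGraph K) (κ' : K → Bool) (S : Set K),
      (∀ x y, R.Adj x y → κ' x ≠ κ' y) → (∀ s ∈ S, κ' s = true) → S.ncard = 2 * δ - 1 →
      1 ≤ δ → (∀ T ⊆ S, T.ncard = δ → B ⊑ cone R T) →
      ∀ M : ℕ, 2 ^ a * Nat.card V < M →
      ∀ (Y E : Type) [Finite Y] [Finite E] (inc : E → (Fin M ⊕ (K ⊕ V)) → Y),
        (∀ e, Function.Injective (inc e)) → LeafyI 2 inc →
        (∀ χ : Y → Co a (Nat.card V), ∃ e c, ∀ i, χ (inc e i) = c) →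
        ¬ InC B (FF (GG (tyT κ κ' v₁ M) inc (tmp B R v₁ a M)) (attS inc S))

/-! ### The theorem -/

/-- The theorem. -/
def TopStmt : Prop :=
  ∀ (V : Type) [Finite V] (B : SimpleGraph V), TwoConn B → B.Colorable 2 → RamseySimple B

end Pool.Agent.TWC80
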